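import Pool.Agent.W792.WA.Stm4
import Pool.Agent.W156.WAFin

/-!
Project WA (MP_28b024_mp), part AEQK: from the mean estimates to spectral measures, any symbol.
-/

set_option autoImplicit false

namespace Pool.Agent.W298.WA.Aeqk

open MeasureTheory Filter Pool.Agent.W792.LL Pool.Agent.W792.WA Pool.Agent.W156.WAFin
open scoped Topology

noncomputable section

theorem gf_imK {d : ℕ} (K : C(UnitAddTorus (Fin d), ℝ)) (v : (Fin d → ℤ) → ℝ) (η E : ℝ) :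
    (gf K 1 v ⟨E, η⟩).im = Aw v * PfK K η E v := by
  have h1 := (hCay.2.2.1 (v 0)).2
  unfold gf Aw PfK
  set Z := Zf (us (Measure.dirac 0) 1 ⟨E, η⟩ K) fun x => cay (v x) with hZ
  set c := cay (v 0) with hc
  set N : ℝ := ‖1 - c‖ ^ 2 with hN
  have h2 : (1 / (2 * Complex.I * ((1 : ℝ) : ℂ)) : ℂ) = -(Complex.I * ((1 / 2 : ℝ) : ℂ)) := by
    push_cast
    field_simp
    rw [Complex.I_sq]; ring
  rw [h2]
  simp only [Complex.mul_im, Complex.mul_re, Complex.neg_re, Complex.neg_im, Complex.I_re,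
    Complex.I_im, Complex.ofReal_re, Complex.ofReal_im, Complex.sub_re, Complex.sub_im,
    Complex.one_re, Complex.one_im, Complex.conj_re, Complex.conj_im]
  have h3 : c.re = 1 - N / 2 := by linarith
  rw [h3]
  field_simp
  ring

theorem repK {d : ℕ} (K : C(UnitAddTorus (Fin d), ℝ)) (v : (Fin d → ℤ) → ℝ) (z z' : ℂ)
    (hz : 0 < z.im) (hz' : 0 < z'.im) : ‖gf K 1 v z - gf K 1 v z'‖ ≤ ‖z - z'‖ / (z.im * z'.im) :=
  (hR d K 1 v (gf K 1 v) (fun z hz => by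
      obtain ⟨⟨w, hw⟩, h2⟩ := hG d K 1 one_pos v z hz
      exact ⟨w, hw, h2 w hw⟩)).2.1 z z' hz hz'

theorem PfK_cont {d : ℕ} (K : C(UnitAddTorus (Fin d), ℝ)) {η : ℝ} (hη : 0 < η)
    (v : (Fin d → ℤ) → ℝ) : Continuous fun E : ℝ => PfK K η E v := by
  have hcont : Continuous fun E : ℝ => (gf K 1 v ⟨E, η⟩).im := by
    refine Complex.continuous_im.comp ?_
    have hlip : LipschitzWith (Real.toNNReal (1 / (η * η)))
        (fun E : ℝ => gf K 1 v ⟨E, η⟩) := by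
      refine LipschitzWith.of_dist_le_mul fun E E' => ?_
      rw [dist_eq_norm, dist_eq_norm, Real.coe_toNNReal _ (by positivity)]
      refine (repK K v ⟨E, η⟩ ⟨E', η⟩ hη hη).trans ?_
      have h3 : ‖(⟨E, η⟩ : ℂ) - ⟨E', η⟩‖ = ‖E - E'‖ := by
        have : (⟨E, η⟩ : ℂ) - ⟨E', η⟩ = ((E - E' : ℝ) : ℂ) := by
          apply Complex.ext <;> simp
        rw [this, Complex.norm_real]
      rw [h3]
      apply le_of_eq
      change ‖E - E'‖ / (η * η) = _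
      ring
    exact hlip.continuous
  have h1 : (fun E : ℝ => PfK K η E v)
      = fun E => (Aw v)⁻¹ * (gf K 1 v ⟨E, η⟩).im := by
    funext E
    rw [gf_imK, inv_mul_cancel_left₀ (Aw_pos v).ne']
  rw [h1]
  exact hcont.const_mul _

/-- size of the parameters -/
def DK {d : ℕ} (K : C(UnitAddTorus (Fin d), ℝ)) (m : ℕ) : ℝ := ‖K‖ + 1 + (m + 1)

theorem DK_pos {d : ℕ} (K : C(UnitAddTorus (Fin d), ℝ)) (m : ℕ) : 0 < DK K m := by
  unfold DK
  positivity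

theorem us_leK {d : ℕ} (K : C(UnitAddTorus (Fin d), ℝ))
    {E η : ℝ} (hη : 0 < η) (hη1 : η ≤ 1) {m : ℕ} (h : |E| ≤ (m : ℝ)) :
    ‖us (Measure.dirac 0) 1 ⟨E, η⟩ K‖
      ≤ Real.sqrt (1 - 4 * 1 * η / DK K m ^ 2) := by
  have hz : (0 : ℝ) ≤ (⟨E, η⟩ : ℂ).im := hη.le
  refine Fn.us_norm_le hC (C := 1) zero_le_one (Fn.dirac_supp one_pos) one_pos hz K fun k => ?_
  refine (hC (Measure.dirac 0) 1 zero_le_one (Fn.dirac_supp one_pos) 1 one_pos
    ⟨E, η⟩ hz).2.2.2.1 (K k) (DK K m) ?_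
  have h1 : |K k| ≤ ‖K‖ := K.norm_coe_le_norm k
  have h2 : ‖(⟨E, η⟩ : ℂ)‖ ≤ |E| + |η| := Complex.norm_le_abs_re_add_abs_im _
  rw [abs_of_pos hη] at h2
  unfold DK
  linarith

theorem gap_posK {d m : ℕ} (K : C(UnitAddTorus (Fin d), ℝ)) {η : ℝ} (hη : 0 < η) :
    0 < 4 * 1 * η / DK K m ^ 2 := by
  have := DK_pos K m
  positivity

theorem PfK_meas (hM : S_MZP) {d : ℕ} (K : C(UnitAddTorus (Fin d), ℝ)) {η : ℝ} (hη : 0 < η)
    (hη1 : η ≤ 1) (E : ℝ) : Measurable (PfK K η E) := by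
  obtain ⟨m, hm⟩ := exists_nat_ge |E|
  have h1 := hM d (us (Measure.dirac 0) 1 ⟨E, η⟩ K) _ (sqrt_lt' (gap_posK K hη))
    (us_leK K hη hη1 hm)
  exact (((Complex.measurable_re.comp h1).const_mul 2).sub_const 1)

theorem PfK_bound {d : ℕ} (K : C(UnitAddTorus (Fin d), ℝ)) {η : ℝ} (hη : 0 < η) (hη1 : η ≤ 1)
    (m : ℕ) : ∃ C : ℝ, ∀ E v, |E| ≤ (m : ℝ) → |PfK K η E v| ≤ C := by
  set q := Real.sqrt (1 - 4 * 1 * η / DK K m ^ 2) with hqdef
  have hq : q < 1 := sqrt_lt' (gap_posK K hη)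
  refine ⟨2 * (1 / (1 - q)) + 1, fun E v hE => ?_⟩
  have h1 := us_leK K hη hη1 hE
  rw [← hqdef] at h1
  have h2 := (hZ d _ _ (fun x => cay (v x)) q (Real.sqrt_nonneg _) hq h1 h1
    (fun x => (hCay.1 _).le)).2.1
  have h3 := Complex.abs_re_le_norm
    (Zf (us (Measure.dirac 0) 1 ⟨E, η⟩ K) (fun x => cay (v x)))
  unfold PfK
  calc |2 * (Zf (us (Measure.dirac 0) 1 ⟨E, η⟩ K) (fun x => cay (v x))).re - 1|
      ≤ |2 * (Zf (us (Measure.dirac 0) 1 ⟨E, η⟩ K) (fun x => cay (v x))).re|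
        + |(1 : ℝ)| := abs_sub _ _
    _ = 2 * |(Zf (us (Measure.dirac 0) 1 ⟨E, η⟩ K) (fun x => cay (v x))).re| + 1 := by
      rw [abs_mul, abs_two, abs_one]
    _ ≤ _ := by linarith

/-- The property proved for almost every potential, at the origin. -/
def QQK {d : ℕ} (K : C(UnitAddTorus (Fin d), ℝ)) (v : (Fin d → ℤ) → ℝ) : Prop :=
  ∃ (μ : Measure ℝ) (h : ℝ → ℝ), IsFiniteMeasure μ ∧
    (∀ z : ℂ, 0 < z.im → (∃ w, Sol (hopK K) 1 v z 0 w) ∧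
      ∀ w, Sol (hopK K) 1 v z 0 w → w 0 = ∫ E : ℝ, 1 / ((E : ℂ) - z) ∂μ) ∧
    Measurable h ∧ (∀ᵐ E ∂(volume.restrict (Set.Ioo (0 : ℝ) (4 * d))), 0 < h E) ∧
    μ.restrict (Set.Ioo (0 : ℝ) (4 * d))
      = (volume.restrict (Set.Ioo (0 : ℝ) (4 * d))).withDensity fun E => ENNReal.ofReal (h E)

theorem ae_QQK (hSPM : S_SPMU) (hACI : S_ACI) (hM : S_MZP) (d : ℕ) (hd : 0 < d)
    (ν : Measure ℝ) [IsProbabilityMeasure ν] (K : C(UnitAddTorus (Fin d), ℝ))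
    (η p : ℕ → ℝ)
    (hη : ∀ n, 0 < η n ∧ η n ≤ 1) (hη0 : Tendsto η atTop (𝓝 0)) (hp : ∀ n, 0 < p n)
    (hpa : Antitone p)
    (hch : ∀ (n : ℕ) (E : ℝ), 0 ≤ E → E ≤ 4 * d →
        ∫ v, |PfK K (η (n + 1)) E v - PfK K (η n) E v| ∂(Pn ν (Fin d → ℤ)) ≤ p n / 4 ^ n ∧
        (Pn ν (Fin d → ℤ) {v | PfK K (η n) E v < p n}).toReal ≤ 1 / 4 ^ n) :
    ∀ᵐ v ∂(Pn ν (Fin d → ℤ)), QQK K v := by
  classical
  set P : ℕ → ℝ → ((Fin d → ℤ) → ℝ) → ℝ := fun n E v =>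
    if E ∈ Set.Icc (0 : ℝ) (4 * d) then PfK K (η n) E v else p 0 with hPdef
  have hP1 : ∀ (n : ℕ) (E : ℝ) v, E ∈ Set.Icc (0 : ℝ) (4 * d) → P n E v = PfK K (η n) E v := by
    intro n E v h
    simp only [hPdef]
    rw [if_pos h]
  have hP2 : ∀ (n : ℕ) (E : ℝ) v, E ∉ Set.Icc (0 : ℝ) (4 * d) → P n E v = p 0 := by
    intro n E v h
    simp only [hPdef]
    rw [if_neg h]
  have hmt := hMT ((Fin d → ℤ) → ℝ) (Pn ν (Fin d → ℤ)) P p ?_ hp hpa ?_ ?_ ?_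
  rotate_left
  · intro n
    have h1 : Measurable (Function.uncurry fun (E : ℝ) (v : (Fin d → ℤ) → ℝ) =>
        PfK K (η n) E v) :=
      measurable_uncurry_of_continuous_of_measurable (fun v => PfK_cont K (hη n).1 v)
        (fun E => PfK_meas hM K (hη n).1 (hη n).2 E)
    have h2 : MeasurableSet {p : ℝ × ((Fin d → ℤ) → ℝ) | p.1 ∈ Set.Icc (0 : ℝ) (4 * d)} :=
      measurable_fst measurableSet_Icc
    exact Measurable.ite h2 h1 measurable_const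
  · intro n
    obtain ⟨B, hB⟩ := PfK_bound K (hη n).1 (hη n).2 (4 * d)
    refine ⟨max B (p 0), fun E v => ?_⟩
    by_cases hE : E ∈ Set.Icc (0 : ℝ) (4 * d)
    · rw [hP1 n E v hE]
      refine (hB E v ?_).trans (le_max_left _ _)
      rw [abs_of_nonneg hE.1]
      push_cast
      exact hE.2
    · rw [hP2 n E v hE, abs_of_pos (hp 0)]
      exact le_max_right _ _
  · intro n E _
    by_cases hE : E ∈ Set.Icc (0 : ℝ) (4 * d)
    · have := (hch n E hE.1 hE.2).1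
      simp only [hP1 _ E _ hE]
      exact this
    · simp only [hP2 _ E _ hE, sub_self, abs_zero, integral_zero]
      have := hp n
      positivity
  · intro n E _
    by_cases hE : E ∈ Set.Icc (0 : ℝ) (4 * d)
    · have := (hch n E hE.1 hE.2).2
      simp only [hP1 _ E _ hE]
      exact this
    · have h1 : ¬ p 0 < p n := not_lt.2 (hpa (Nat.zero_le n))
      simp only [hP2 _ E _ hE, h1, Set.ofPred_false, measure_empty, ENNReal.toReal_zero]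
      positivity
  filter_upwards [hmt] with v hv
  obtain ⟨hv1, hv2⟩ := hv
  obtain ⟨μ, hμ, hμs⟩ := hSPM d K v
  have hgf : ∀ z : ℂ, 0 < z.im → ∫ E : ℝ, 1 / ((E : ℂ) - z) ∂μ = gf K 1 v z := by
    intro z hz
    obtain ⟨⟨w, hw⟩, h2⟩ := hμs z hz
    rw [← h2 w hw]
    exact (hG d K 1 one_pos v z hz).2 w hw
  have hA0 := Aw_pos v
  have hF : ∀ (n : ℕ) (E : ℝ), (∫ t : ℝ, 1 / ((t : ℂ) - ⟨E, η n⟩) ∂μ).im
      = Aw v * PfK K (η n) E v := by
    intro n E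
    rw [hgf ⟨E, η n⟩ (hη n).1, gf_imK]
  have hd' : (0 : ℝ) < 4 * d := by positivity
  have hsum : Summable fun n : ℕ => ∫ E in Set.Icc (0 : ℝ) (4 * d),
      |(∫ t : ℝ, 1 / ((t : ℂ) - ⟨E, η (n + 1)⟩) ∂μ).im
        - (∫ t : ℝ, 1 / ((t : ℂ) - ⟨E, η n⟩) ∂μ).im| := by
    refine ((hv1 (4 * d)).mul_left (Aw v)).congr fun n => ?_
    rw [← integral_const_mul]
    have h1 : Set.Icc (0 : ℝ) (4 * d) = Set.Icc (-((4 * d : ℕ) : ℝ)) ((4 * d : ℕ) : ℝ)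
        ∩ Set.Icc (0 : ℝ) (4 * d) := by
      rw [Set.inter_eq_right.2]
      push_cast
      exact Set.Icc_subset_Icc (by linarith) le_rfl
    rw [h1, ← setIntegral_indicator measurableSet_Icc]
    refine setIntegral_congr_fun measurableSet_Icc fun E _ => ?_
    by_cases hE : E ∈ Set.Icc (0 : ℝ) (4 * d)
    · simp only [Set.indicator_of_mem hE]
      rw [hP1 _ E _ hE, hP1 _ E _ hE, hF, hF, ← mul_sub, abs_mul, abs_of_pos hA0]
    · simp only [Set.indicator_of_notMem hE]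
      rw [hP2 _ E _ hE, hP2 _ E _ hE]
      simp
  have hlim : ∀ᵐ E ∂(volume.restrict (Set.Ioo (0 : ℝ) (4 * d))), ∃ L : ℝ, 0 < L ∧
      Tendsto (fun n => (∫ t : ℝ, 1 / ((t : ℂ) - ⟨E, η n⟩) ∂μ).im) atTop (𝓝 L) := by
    rw [ae_restrict_iff' measurableSet_Ioo]
    filter_upwards [hv2] with E hE hE2
    obtain ⟨L, hL0, hL1⟩ := hE
    refine ⟨Aw v * L, mul_pos hA0 hL0, ?_⟩
    refine (hL1.const_mul (Aw v)).congr fun n => ?_
    rw [hF, hP1 n E v ⟨hE2.1.le, hE2.2.le⟩]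
  obtain ⟨h, hh1, hh2, hh3⟩ := hACI μ 0 (4 * d) η hd' (fun n => (hη n).1) hη0 hsum hlim
  exact ⟨μ, h, hμ, hμs, hh1, hh2, hh3⟩

theorem main : S_SPMU → S_ACI → S_SHF → S_SCA → S_MZP → S_AEQK := by
  intro hSPM hACI hSHF hSCA hM d ν _ lam K _ hd hlam hmest
  obtain ⟨η, p, hη, hη0, hp, hpa, hch⟩ := hmest
  have h1 := ae_QQK hSPM hACI hM d hd (ν.map fun x => lam * x) K η p hη hη0 hp hpa hch
  have h2 := hSHF (ν.map fun x => lam * x) d _ h1
  have h3 := hSCA ν lam d _ h2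
  have hsh := (hS d (hopK K) lam (fun _ => True) (by simp)).2
  filter_upwards [h3] with v hv
  intro x
  obtain ⟨μ, h, k1, k2, k3, k4, k5⟩ := hv x
  refine ⟨μ, h, k1, fun z hz => ⟨?_, fun w hw => ?_⟩, k3, k4, k5⟩
  · obtain ⟨w, hw⟩ := (k2 z hz).1
    refine ⟨fun y => w (y - x), (hsh v z x _).2 ?_⟩
    have : (fun y => w (y + x - x)) = w := by funext y; rw [add_sub_cancel_right]
    rw [this]
    exact (sol_scale _ _ (fun y => v (y + x)) _ _ _).1 hw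
  · have h4 := (hsh v z x w).1 hw
    have h5 := (k2 z hz).2 _ ((sol_scale _ _ (fun y => v (y + x)) _ _ _).2 h4)
    rw [← h5, zero_add]

end

end Pool.Agent.W298.WA.Aeqk
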