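import Pool.Agent.W298.WA.CsymA

/-!
Project WA, part CSYM: the averaged resolvent is a convolution operator with continuous symbol.
-/

set_option autoImplicit false

namespace Pool.Agent.W298.WA.Csym

open MeasureTheory Filter Pool.Agent.W792.LL Pool.Agent.W792.WA
open scoped Topology

variable {d : ℕ}

lemma inner_trunc (w g : l2 (Fin d → ℤ)) (s : Finset (Fin d → ℤ)) :
    inner ℂ (∑ x ∈ s, w x • (dl x : l2 (Fin d → ℤ))) g =
      ∑ x ∈ s, (starRingEnd ℂ) (w x) * g x := by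
  rw [sum_inner]
  refine Finset.sum_congr rfl fun x _ => ?_
  rw [inner_smul_left, inner_dl]

lemma tendsto_trunc (w g : l2 (Fin d → ℤ)) :
    Tendsto (fun s : Finset (Fin d → ℤ) => inner ℂ (∑ x ∈ s, w x • (dl x : l2 (Fin d → ℤ))) g)
      atTop (𝓝 (inner ℂ w g)) := by
  have h : Tendsto (fun s : Finset (Fin d → ℤ) => ∑ x ∈ s, w x • (dl x : l2 (Fin d → ℤ)))
      atTop (𝓝 w) := hasSum_dl w
  exact Tendsto.inner h tendsto_const_nhds

/-- matrix elements of random operators with given mean -/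
lemma mean_inner (ν : Measure ℝ) [IsProbabilityMeasure ν]
    {A : ((Fin d → ℤ) → ℝ) → (l2 (Fin d → ℤ) →L[ℂ] l2 (Fin d → ℤ))}
    {C : C(UnitAddTorus (Fin d), ℂ)} {K : ℝ} (hA : HM ν A C) (hK : ∀ v, ‖A v‖ ≤ K)
    (w u : l2 (Fin d → ℤ)) : Measurable (fun v => inner ℂ w (A v u)) ∧
    ∫ v, inner ℂ w (A v u) ∂(Pn ν (Fin d → ℤ)) = inner ℂ w (opr C u) := by
  have hm : ∀ s : Finset (Fin d → ℤ),
      Measurable (fun v => inner ℂ (∑ x ∈ s, w x • (dl x : l2 (Fin d → ℤ))) (A v u)) := by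
    intro s
    simp only [inner_trunc]
    exact Finset.measurable_fun_sum s fun x _ => (hA u x).1.const_mul _
  have hb : ∀ (s : Finset (Fin d → ℤ)) (v : (Fin d → ℤ) → ℝ),
      ‖inner ℂ (∑ x ∈ s, w x • (dl x : l2 (Fin d → ℤ))) (A v u)‖ ≤ ‖w‖ * (K * ‖u‖) := by
    intro s v
    have h1 := norm_inner_le_norm (𝕜 := ℂ) (∑ x ∈ s, w x • (dl x : l2 (Fin d → ℤ))) (A v u)
    have h2 := trunc_norm w s
    have h3 : ‖A v u‖ ≤ K * ‖u‖ := (A v).le_of_opNorm_le (hK v) u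
    calc _ ≤ _ := h1
      _ ≤ _ := mul_le_mul h2 h3 (norm_nonneg _) (norm_nonneg _)
  have hmw : Measurable (fun v => inner ℂ w (A v u)) :=
    measurable_of_tendsto_metrizable' (u := (atTop : Filter (Finset (Fin d → ℤ)))) hm
      (tendsto_pi_nhds.2 fun v => tendsto_trunc w (A v u))
  refine ⟨hmw, ?_⟩
  have hT := tendsto_integral_filter_of_dominated_convergence
    (μ := Pn ν (Fin d → ℤ)) (l := (atTop : Filter (Finset (Fin d → ℤ))))
    (F := fun s v => inner ℂ (∑ x ∈ s, w x • (dl x : l2 (Fin d → ℤ))) (A v u))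
    (f := fun v => inner ℂ w (A v u)) (fun _ => ‖w‖ * (K * ‖u‖))
    (Eventually.of_forall fun s => (hm s).aestronglyMeasurable)
    (Eventually.of_forall fun s => Eventually.of_forall fun v => hb s v)
    (integrable_const _) (Eventually.of_forall fun v => tendsto_trunc w (A v u))
  have he : ∀ s : Finset (Fin d → ℤ),
      ∫ v, inner ℂ (∑ x ∈ s, w x • (dl x : l2 (Fin d → ℤ))) (A v u) ∂(Pn ν (Fin d → ℤ)) =
      inner ℂ (∑ x ∈ s, w x • (dl x : l2 (Fin d → ℤ))) (opr C u) := by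
    intro s
    simp only [inner_trunc]
    rw [integral_finsetSum _ fun x _ => (entry_int ν hK (hA u x).1).const_mul _]
    refine Finset.sum_congr rfl fun x _ => ?_
    rw [integral_const_mul, (hA u x).2]
  simp only [he] at hT
  exact tendsto_nhds_unique hT (tendsto_trunc w (opr C u))

lemma opr_le (ν : Measure ℝ) [IsProbabilityMeasure ν]
    {A : ((Fin d → ℤ) → ℝ) → (l2 (Fin d → ℤ) →L[ℂ] l2 (Fin d → ℤ))}
    {C : C(UnitAddTorus (Fin d), ℂ)} {K : ℝ} (hA : HM ν A C) (hK : ∀ v, ‖A v‖ ≤ K)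
    (hS : S_SYMB) : ‖C‖ ≤ K := by
  have hK0 : 0 ≤ K := (norm_nonneg _).trans (hK fun _ => 0)
  rw [← (hS d).2.1 C]
  refine ContinuousLinearMap.opNorm_le_bound _ hK0 fun u => ?_
  have h1 := (mean_inner ν hA hK (opr C u) u).2
  have h2 : ‖inner ℂ (opr C u) (opr C u)‖ ≤ ‖opr C u‖ * (K * ‖u‖) := by
    rw [← h1]
    have h3 := norm_integral_le_of_norm_le_const (μ := Pn ν (Fin d → ℤ))
      (f := fun v => inner ℂ (opr C u) (A v u)) (C := ‖opr C u‖ * (K * ‖u‖))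
      (Eventually.of_forall fun v => (norm_inner_le_norm (𝕜 := ℂ) _ _).trans
        (mul_le_mul_of_nonneg_left ((A v).le_of_opNorm_le (hK v) u) (norm_nonneg _)))
    simpa using h3
  rw [inner_self_eq_norm_sq_to_K] at h2
  have h4 : ‖opr C u‖ ^ 2 ≤ ‖opr C u‖ * (K * ‖u‖) := by
    refine le_trans (le_of_eq ?_) h2
    rw [norm_pow]
    simp
  by_cases h0 : ‖opr C u‖ = 0
  · rw [h0]; positivity
  · have hpos : 0 < ‖opr C u‖ := lt_of_le_of_ne (norm_nonneg _) (Ne.symm h0)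
    rw [pow_two] at h4
    exact le_of_mul_le_mul_left h4 hpos

lemma HM.sub {ν : Measure ℝ} [IsProbabilityMeasure ν]
    {A B : ((Fin d → ℤ) → ℝ) → (l2 (Fin d → ℤ) →L[ℂ] l2 (Fin d → ℤ))}
    {C D : C(UnitAddTorus (Fin d), ℂ)} {K L : ℝ} (hA : HM ν A C) (hK : ∀ v, ‖A v‖ ≤ K)
    (hB : HM ν B D) (hL : ∀ v, ‖B v‖ ≤ L) : HM ν (fun v => A v - B v) (C - D) := by
  intro u x
  have e : ∀ v, (A v - B v) u x = A v u x - B v u x := fun v => rfl
  refine ⟨?_, ?_⟩
  · simp only [e]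
    exact (hA u x).1.sub (hB u x).1
  · simp only [e]
    rw [integral_sub (entry_int ν hK (hA u x).1) (entry_int ν hL (hB u x).1), (hA u x).2,
      (hB u x).2, opr_sub]
    rfl

/-- limits -/
lemma HM.lim {ν : Measure ℝ} [IsProbabilityMeasure ν] (hS : S_SYMB)
    {A : ((Fin d → ℤ) → ℝ) → (l2 (Fin d → ℤ) →L[ℂ] l2 (Fin d → ℤ))} {K : ℝ}
    (hK : ∀ v, ‖A v‖ ≤ K)
    {B : ℕ → ((Fin d → ℤ) → ℝ) → (l2 (Fin d → ℤ) →L[ℂ] l2 (Fin d → ℤ))}
    (hB : ∀ j, ∃ C : C(UnitAddTorus (Fin d), ℂ), HM ν (B j) C) {e : ℕ → ℝ}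
    (he : Tendsto e atTop (𝓝 0)) (hAB : ∀ j v, ‖B j v - A v‖ ≤ e j) :
    ∃ C : C(UnitAddTorus (Fin d), ℂ), HM ν A C := by
  choose C hC using hB
  have hBK : ∀ j v, ‖B j v‖ ≤ e j + K := by
    intro j v
    have : B j v = (B j v - A v) + A v := by abel
    calc ‖B j v‖ = ‖(B j v - A v) + A v‖ := by rw [← this]
      _ ≤ ‖B j v - A v‖ + ‖A v‖ := norm_add_le _ _
      _ ≤ _ := add_le_add (hAB j v) (hK v)
  have hdist : ∀ j k, ‖C j - C k‖ ≤ e j + e k := by
    intro j k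
    refine opr_le ν (A := fun v => B j v - B k v) ((hC j).sub (hBK j) (hC k) (hBK k)) ?_ hS
    intro v
    have : B j v - B k v = (B j v - A v) - (B k v - A v) := by abel
    calc ‖B j v - B k v‖ = ‖(B j v - A v) - (B k v - A v)‖ := by rw [← this]
      _ ≤ ‖B j v - A v‖ + ‖B k v - A v‖ := norm_sub_le _ _
      _ ≤ _ := add_le_add (hAB j v) (hAB k v)
  have hcs : CauchySeq C := by
    rw [Metric.cauchySeq_iff]
    intro ε hε
    have h1 : ∀ᶠ j in atTop, e j < ε / 2 := he.eventually (gt_mem_nhds (by positivity))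
    obtain ⟨N, hN⟩ := eventually_atTop.1 h1
    refine ⟨N, fun j hj k hk => ?_⟩
    rw [dist_eq_norm]
    have := hdist j k
    have := hN j hj
    have := hN k hk
    linarith
  obtain ⟨D, hD⟩ := cauchySeq_tendsto_of_complete hcs
  refine ⟨D, fun u x => ?_⟩
  have hpt : ∀ v, Tendsto (fun j => B j v u x) atTop (𝓝 (A v u x)) := by
    intro v
    rw [tendsto_iff_norm_sub_tendsto_zero]
    have h2 : Tendsto (fun j => e j * ‖u‖) atTop (𝓝 0) := by simpa using he.mul_const ‖u‖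
    refine squeeze_zero (fun _ => norm_nonneg _) (fun j => ?_) h2
    have h3 : B j v u x - A v u x = (B j v - A v) u x := rfl
    rw [h3]
    exact (apply_le _ x).trans ((B j v - A v).le_of_opNorm_le (hAB j v) u)
  have hm : Measurable (fun v => A v u x) :=
    measurable_of_tendsto_metrizable (fun j => (hC j u x).1) (tendsto_pi_nhds.2 hpt)
  refine ⟨hm, ?_⟩
  obtain ⟨E, hE⟩ : ∃ E, ∀ j, e j ≤ E := by
    obtain ⟨E, hE⟩ := he.bddAbove_range
    exact ⟨E, fun j => hE ⟨j, rfl⟩⟩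
  have hT := tendsto_integral_filter_of_dominated_convergence
    (μ := Pn ν (Fin d → ℤ)) (l := (atTop : Filter ℕ)) (F := fun j v => B j v u x)
    (f := fun v => A v u x) (fun _ => (E + K) * ‖u‖)
    (Eventually.of_forall fun j => (hC j u x).1.aestronglyMeasurable)
    (Eventually.of_forall fun j => Eventually.of_forall fun v =>
      entry_le (fun v => (hBK j v).trans (add_le_add (hE j) le_rfl)) u x v)
    (integrable_const _) (Eventually.of_forall hpt)
  have hT2 : Tendsto (fun j => opr (C j) u x) atTop (𝓝 (opr D u x)) := by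
    rw [tendsto_iff_norm_sub_tendsto_zero]
    have h2 : Tendsto (fun j => ‖C j - D‖ * ‖u‖) atTop (𝓝 0) := by
      have := (tendsto_iff_norm_sub_tendsto_zero.1 hD).mul_const ‖u‖
      simpa using this
    refine squeeze_zero (fun _ => norm_nonneg _) (fun j => ?_) h2
    have h3 : opr (C j) u x - opr D u x = (opr (C j - D)) u x := by
      rw [opr_sub]; rfl
    rw [h3]
    exact (apply_le _ x).trans ((opr (C j - D)).le_of_opNorm_le (opr_norm_le _) u)
  have hT3 : ∀ j, ∫ v, B j v u x ∂(Pn ν (Fin d → ℤ)) = opr (C j) u x := fun j => (hC j u x).2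
  simp only [hT3] at hT
  exact tendsto_nhds_unique hT hT2

/-! ### the resolvent -/

lemma T_norm (m : C(UnitAddTorus (Fin d), ℂ)) (v : (Fin d → ℤ) → ℝ) :
    ‖opr m * dc v‖ ≤ ‖m‖ := by
  calc ‖opr m * dc v‖ ≤ ‖opr m‖ * ‖dc v‖ := nmul _ _
    _ ≤ ‖m‖ * 1 := mul_le_mul (opr_norm_le m) (dc_norm v) (norm_nonneg _) (norm_nonneg _)
    _ = ‖m‖ := mul_one _

lemma rsv_inv (m : C(UnitAddTorus (Fin d), ℂ)) (hm : ‖m‖ < 1) (v : (Fin d → ℤ) → ℝ) :
    (1 - opr m * dc v) * rsv m v = 1 ∧ rsv m v * (1 - opr m * dc v) = 1 := by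
  have hu : IsUnit (1 - opr m * dc v) :=
    isUnit_one_sub_of_norm_lt_one ((T_norm m v).trans_lt hm)
  exact ⟨Ring.mul_inverse_cancel _ hu, Ring.inverse_mul_cancel _ hu⟩

lemma rsv_eq (m : C(UnitAddTorus (Fin d), ℂ)) (hm : ‖m‖ < 1) (v : (Fin d → ℤ) → ℝ) :
    rsv m v = 1 + opr m * (dc v * rsv m v) := by
  have h := (rsv_inv m hm v).1
  have e : (1 - opr m * dc v) * rsv m v = rsv m v - opr m * (dc v * rsv m v) := by
    rw [sub_mul, one_mul, mul_assoc]
  rw [e] at h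
  exact (sub_eq_iff_eq_add.1 h)

lemma rsv_norm (m : C(UnitAddTorus (Fin d), ℂ)) {q : ℝ} (hq : q < 1) (hm : ‖m‖ ≤ q)
    (v : (Fin d → ℤ) → ℝ) : ‖rsv m v‖ ≤ 1 / (1 - q) := by
  have h1 := rsv_eq m (hm.trans_lt hq) v
  have h2 : ‖rsv m v‖ ≤ 1 + q * ‖rsv m v‖ := by
    have h3 : ‖opr m * (dc v * rsv m v)‖ ≤ q * ‖rsv m v‖ := by
      calc _ ≤ ‖opr m‖ * ‖dc v * rsv m v‖ := nmul _ _
        _ ≤ q * (1 * ‖rsv m v‖) := by
          refine mul_le_mul ((opr_norm_le m).trans hm) ?_ (norm_nonneg _)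
            ((norm_nonneg m).trans hm)
          exact (nmul _ _).trans (mul_le_mul_of_nonneg_right (dc_norm v) (norm_nonneg _))
        _ = _ := by rw [one_mul]
    have h4 : ‖(1 : l2 (Fin d → ℤ) →L[ℂ] l2 (Fin d → ℤ))‖ ≤ 1 :=
      ContinuousLinearMap.norm_id_le
    calc ‖rsv m v‖ = ‖1 + opr m * (dc v * rsv m v)‖ := by rw [← h1]
      _ ≤ ‖(1 : l2 (Fin d → ℤ) →L[ℂ] l2 (Fin d → ℤ))‖ + ‖opr m * (dc v * rsv m v)‖ :=
        norm_add_le _ _
      _ ≤ _ := add_le_add h4 h3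
  rw [le_div_iff₀ (by linarith)]
  linarith

lemma pow_norm (T : l2 (Fin d → ℤ) →L[ℂ] l2 (Fin d → ℤ)) {q : ℝ} (hT : ‖T‖ ≤ q) (n : ℕ) :
    ‖T ^ n‖ ≤ q ^ n := by
  have hq : 0 ≤ q := (norm_nonneg _).trans hT
  induction n with
  | zero =>
    rw [pow_zero, pow_zero]
    exact ContinuousLinearMap.norm_id_le
  | succ n ih =>
    rw [pow_succ, pow_succ]
    exact (nmul _ _).trans (mul_le_mul ih hT (norm_nonneg _) (pow_nonneg hq n))

/-- the approximation -/
lemma approx (m : C(UnitAddTorus (Fin d), ℂ)) (h : (Fin d → ℤ) →₀ ℂ) {q δ : ℝ} (hq : q < 1)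
    (hm : ‖m‖ ≤ q) (hh : ‖trig h‖ ≤ q) (hd : ‖trig h - m‖ ≤ δ) (n : ℕ) (v : (Fin d → ℤ) → ℝ) :
    ‖dc v * (∑ i ∈ Finset.range n, (opr (trig h) * dc v) ^ i) - dc v * rsv m v‖ ≤
      q ^ n / (1 - q) + δ / (1 - q) ^ 2 := by
  have hq0 : 0 ≤ q := (norm_nonneg m).trans hm
  have h1q : 0 < 1 - q := by linarith
  set S := ∑ i ∈ Finset.range n, (opr (trig h) * dc v) ^ i with hS
  have e1 : rsv (trig h) v * (opr (trig h) * dc v) ^ n = rsv (trig h) v - S := by
    have h2 : (1 - opr (trig h) * dc v) * S = 1 - (opr (trig h) * dc v) ^ n :=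
      mul_neg_geom_sum _ n
    have h3 := (rsv_inv (trig h) (hh.trans_lt hq) v).2
    have h4 : rsv (trig h) v * ((1 - opr (trig h) * dc v) * S) =
        rsv (trig h) v * (1 - (opr (trig h) * dc v) ^ n) := by rw [h2]
    rw [← mul_assoc, h3, one_mul, mul_sub, mul_one] at h4
    rw [h4]
    abel
  have e2 : rsv (trig h) v - rsv m v = rsv (trig h) v * (opr (trig h - m) * dc v) * rsv m v := by
    have h3 := (rsv_inv (trig h) (hh.trans_lt hq) v).2
    have h4 := (rsv_inv m (hm.trans_lt hq) v).1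
    have h5 : opr (trig h - m) * dc v =
        (1 - opr m * dc v) - (1 - opr (trig h) * dc v) := by
      rw [opr_sub, sub_mul]; abel
    rw [h5, mul_sub, h3, sub_mul, one_mul, mul_assoc, h4, mul_one]
  have b1 : ‖rsv (trig h) v * (opr (trig h) * dc v) ^ n‖ ≤ q ^ n / (1 - q) := by
    calc _ ≤ ‖rsv (trig h) v‖ * ‖(opr (trig h) * dc v) ^ n‖ := nmul _ _
      _ ≤ 1 / (1 - q) * q ^ n := mul_le_mul (rsv_norm _ hq hh v)
        (pow_norm _ ((T_norm _ v).trans hh) n) (norm_nonneg _) (by positivity)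
      _ = _ := by ring
  have b2 : ‖rsv (trig h) v - rsv m v‖ ≤ δ / (1 - q) ^ 2 := by
    rw [e2]
    calc _ ≤ ‖rsv (trig h) v * (opr (trig h - m) * dc v)‖ * ‖rsv m v‖ := nmul _ _
      _ ≤ (‖rsv (trig h) v‖ * ‖opr (trig h - m) * dc v‖) * ‖rsv m v‖ :=
        mul_le_mul_of_nonneg_right (nmul _ _) (norm_nonneg _)
      _ ≤ (1 / (1 - q) * δ) * (1 / (1 - q)) := by
        refine mul_le_mul ?_ (rsv_norm _ hq hm v) (norm_nonneg _) ?_
        · exact mul_le_mul (rsv_norm _ hq hh v) ((T_norm _ v).trans hd) (norm_nonneg _)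
            (by positivity)
        · have : 0 ≤ δ := (norm_nonneg _).trans hd
          positivity
      _ = _ := by field_simp
  have e3 : dc v * S - dc v * rsv m v =
      dc v * ((rsv (trig h) v - rsv m v) - (rsv (trig h) v - S)) := by
    rw [← mul_sub]
    congr 1
    abel
  rw [e3, ← e1]
  calc _ ≤ ‖dc v‖ * ‖(rsv (trig h) v - rsv m v) - rsv (trig h) v * (opr (trig h) * dc v) ^ n‖ :=
        nmul _ _
    _ ≤ 1 * (‖rsv (trig h) v - rsv m v‖ + ‖rsv (trig h) v * (opr (trig h) * dc v) ^ n‖) :=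
        mul_le_mul (dc_norm v) (norm_sub_le _ _) (norm_nonneg _) zero_le_one
    _ ≤ _ := by linarith

lemma A_norm (m : C(UnitAddTorus (Fin d), ℂ)) (hm : ‖m‖ < 1) (v : (Fin d → ℤ) → ℝ) :
    ‖dc v * rsv m v‖ ≤ 1 / (1 - ‖m‖) := by
  calc _ ≤ ‖dc v‖ * ‖rsv m v‖ := nmul _ _
    _ ≤ 1 * (1 / (1 - ‖m‖)) := mul_le_mul (dc_norm v) (rsv_norm m hm le_rfl v) (norm_nonneg _)
      zero_le_one
    _ = _ := one_mul _

lemma exists_symbol (hS : S_SYMB) (ν : Measure ℝ) [IsProbabilityMeasure ν]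
    (m : C(UnitAddTorus (Fin d), ℂ)) (hm : ‖m‖ < 1) :
    ∃ C : C(UnitAddTorus (Fin d), ℂ), HM ν (fun v => dc v * rsv m v) C := by
  set q : ℝ := (1 + ‖m‖) / 2 with hq
  have hq1 : q < 1 := by rw [hq]; linarith
  have hmq : ‖m‖ < q := by rw [hq]; linarith
  have hex : ∀ j : ℕ, ∃ h : (Fin d → ℤ) →₀ ℂ, ‖trig h - m‖ ≤ min (q - ‖m‖) (1 / ((j : ℝ) + 1)) :=
    fun j => (Pool.Agent.W308.LL.Trig.main d).1 m _ (lt_min (by linarith) (by positivity))
  choose h hh using hex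
  have hhq : ∀ j, ‖trig (h j)‖ ≤ q := by
    intro j
    have h1 := (hh j).trans (min_le_left _ _)
    calc ‖trig (h j)‖ = ‖(trig (h j) - m) + m‖ := by rw [sub_add_cancel]
      _ ≤ ‖trig (h j) - m‖ + ‖m‖ := norm_add_le _ _
      _ ≤ q := by linarith
  have he : Tendsto (fun j : ℕ => q ^ j / (1 - q) + (1 / ((j : ℝ) + 1)) / (1 - q) ^ 2) atTop
      (𝓝 0) := by
    have hq0 : 0 ≤ q := (norm_nonneg m).trans hmq.le
    have h1 := (tendsto_pow_atTop_nhds_zero_of_lt_one hq0 hq1).div_const (1 - q)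
    have h2 := (tendsto_one_div_add_atTop_nhds_zero_nat (𝕜 := ℝ)).div_const ((1 - q) ^ 2)
    simpa using h1.add h2
  refine HM.lim hS (A_norm m hm)
    (B := fun j v => dc v * (∑ i ∈ Finset.range j, (opr (trig (h j)) * dc v) ^ i)) ?_ he ?_
  · intro j
    exact (Gd.dc.mul (((Gd.trg (h j)).mul Gd.dc).geom j)).mean ν
  · intro j v
    exact approx m (h j) hq1 hmq.le (hhq j) ((hh j).trans (min_le_right _ _)) j v

theorem main : Pool.Agent.W792.WA.S_SYMB → Pool.Agent.W792.WA.S_CSYM := by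
  intro hS ν _ d m hm
  obtain ⟨C, hC⟩ := exists_symbol hS ν m hm
  have hex : ∃ C : C(UnitAddTorus (Fin d), ℂ), ∀ (u : l2 (Fin d → ℤ)) (x : Fin d → ℤ),
      ∫ v, (dc v (rsv m v u)) x ∂(Pn ν (Fin d → ℤ)) = opr C u x :=
    ⟨C, fun u x => (hC u x).2⟩
  have hcs : ∀ (u : l2 (Fin d → ℤ)) (x : Fin d → ℤ),
      ∫ v, (dc v (rsv m v u)) x ∂(Pn ν (Fin d → ℤ)) = opr (csym ν m) u x := by
    have : csym ν m = Classical.choose hex := by
      unfold csym
      rw [dif_pos hex]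
    rw [this]
    exact Classical.choose_spec hex
  have hHM : HM ν (fun v => dc v * rsv m v) (csym ν m) := fun u x => ⟨(hC u x).1, hcs u x⟩
  refine ⟨fun v => ⟨rsv_norm m hm le_rfl v, rsv_inv m hm v⟩, fun u x => ?_, ?_⟩
  · -- the second mean
    have hin : ∀ w : l2 (Fin d → ℤ), opr m w x = inner ℂ (opr (star m) (dl x)) w := by
      intro w
      have h1 := (hS d).1 (star m) 1 (dl x) w
      rw [(Pool.Agent.W918.LL.main d m m).2.2.2.2.2.1, star_star, mul_one, inner_dl] at h1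
      exact h1.symm
    have hrs : ∀ v, rsv m v u x = u x + inner ℂ (opr (star m) (dl x)) ((dc v * rsv m v) u) := by
      intro v
      rw [← hin]
      have h1 := rsv_eq m hm v
      calc rsv m v u x = (1 + opr m * (dc v * rsv m v)) u x := by rw [← h1]
        _ = _ := rfl
    obtain ⟨i1, i2⟩ := mean_inner ν hHM (A_norm m hm) (opr (star m) (dl x)) u
    refine ⟨?_, (hC u x).1, hcs u x, ?_⟩
    · simp only [hrs]
      exact measurable_const.add i1
    · simp only [hrs]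
      have hint : Integrable (fun v => inner ℂ (opr (star m) (dl x)) ((dc v * rsv m v) u))
          (Pn ν (Fin d → ℤ)) := by
        refine Integrable.of_bound i1.aestronglyMeasurable
          (‖opr (star m) (dl x)‖ * (1 / (1 - ‖m‖) * ‖u‖)) (Eventually.of_forall fun v => ?_)
        exact (norm_inner_le_norm (𝕜 := ℂ) _ _).trans (mul_le_mul_of_nonneg_left
          ((dc v * rsv m v).le_of_opNorm_le (A_norm m hm v) u) (norm_nonneg _))
      rw [integral_add (integrable_const _) hint, integral_const, i2, ← hin, opr_mul]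
      simp
  · exact opr_le ν hHM (A_norm m hm) hS

end Pool.Agent.W298.WA.Csym
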