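import Pool.Agent.W792.WA.Stm
import Pool.Agent.W918.LL.Opr
import Pool.Agent.W792.LL.Dia
import Pool.Agent.W335.LLCay
import Pool.Agent.W308.LL.Trig

/-!
Project WA, part CSYM, first file: vectors of `l2`, random operators of finite range, and their
averages.
-/

set_option autoImplicit false

namespace Pool.Agent.W298.WA.Csym

open MeasureTheory Filter Pool.Agent.W792.LL Pool.Agent.W792.WA
open scoped Topology

variable {d : ℕ}

lemma dl_apply (x y : Fin d → ℤ) :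
    (dl x : l2 (Fin d → ℤ)) y = if y = x then (1 : ℂ) else 0 := by
  unfold dl
  rw [lp.single_apply, Pi.single_apply]

lemma inner_dl (x : Fin d → ℤ) (f : l2 (Fin d → ℤ)) : inner ℂ (dl x) f = f x := by
  unfold dl
  rw [lp.inner_single_left]
  simp

lemma apply_le (f : l2 (Fin d → ℤ)) (x : Fin d → ℤ) : ‖f x‖ ≤ ‖f‖ :=
  lp.norm_apply_le_norm two_ne_zero f x

lemma norm_dl (x : Fin d → ℤ) : ‖(dl x : l2 (Fin d → ℤ))‖ = 1 := by
  unfold dl
  rw [lp.norm_single (by norm_num)]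
  simp

lemma hasSum_dl (f : l2 (Fin d → ℤ)) : HasSum (fun y => f y • (dl y : l2 (Fin d → ℤ))) f := by
  have h := lp.hasSum_single (p := 2) (by norm_num) f
  refine h.congr_fun ?_ |> id
  intro y
  unfold dl
  rw [← lp.single_smul]
  simp

lemma app_hasSum (T : l2 (Fin d → ℤ) →L[ℂ] l2 (Fin d → ℤ)) (f : l2 (Fin d → ℤ))
    (x : Fin d → ℤ) : HasSum (fun y => f y * T (dl y) x) (T f x) := by
  have h1 := ((hasSum_dl f).mapL T).mapL (innerSL ℂ (dl x))
  simp only [innerSL_apply_apply, inner_dl, map_smul] at h1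
  refine h1.congr_fun ?_ |> id
  intro y
  simp

lemma app_fin (T : l2 (Fin d → ℤ) →L[ℂ] l2 (Fin d → ℤ)) (f : l2 (Fin d → ℤ)) (x : Fin d → ℤ)
    (s : Finset (Fin d → ℤ)) (h : ∀ y ∉ s, f y * T (dl y) x = 0) :
    T f x = ∑ y ∈ s, f y * T (dl y) x :=
  (app_hasSum T f x).unique (hasSum_sum_of_ne_finset_zero h)

lemma trunc_apply (w : l2 (Fin d → ℤ)) (s : Finset (Fin d → ℤ)) (i : Fin d → ℤ) :
    (∑ x ∈ s, w x • (dl x : l2 (Fin d → ℤ))) i = if i ∈ s then w i else 0 := by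
  rw [lp.coeFn_sum, Finset.sum_apply]
  simp only [lp.coeFn_smul, Pi.smul_apply, dl_apply, smul_eq_mul, mul_ite, mul_one, mul_zero]
  rw [Finset.sum_ite_eq]

lemma trunc_norm (w : l2 (Fin d → ℤ)) (s : Finset (Fin d → ℤ)) :
    ‖∑ x ∈ s, w x • (dl x : l2 (Fin d → ℤ))‖ ≤ ‖w‖ := by
  refine lp.norm_mono two_ne_zero fun i => ?_
  rw [trunc_apply]
  split_ifs
  · exact le_rfl
  · simp

lemma cay_norm (a : ℝ) : ‖cay a‖ = 1 := Pool.Agent.W335.LLCay.main.1 a

lemma cay_cont : Continuous cay := Pool.Agent.W335.LLCay.main.2.1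

lemma dc_apply (v : (Fin d → ℤ) → ℝ) (u : l2 (Fin d → ℤ)) (x : Fin d → ℤ) :
    dc v u x = cay (v x) * u x :=
  (Pool.Agent.W792.LL.DiaP.main (Fin d → ℤ) (fun x => cay (v x))
    (fun x => (cay_norm (v x)).le)).1 u x

lemma dc_norm (v : (Fin d → ℤ) → ℝ) : ‖dc v‖ ≤ 1 :=
  (Pool.Agent.W792.LL.DiaP.main (Fin d → ℤ) (fun x => cay (v x))
    (fun x => (cay_norm (v x)).le)).2

lemma opr_norm_le (m : C(UnitAddTorus (Fin d), ℂ)) : ‖opr m‖ ≤ ‖m‖ :=
  (Pool.Agent.W918.LL.main d m m).2.1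

lemma opr_add (m m' : C(UnitAddTorus (Fin d), ℂ)) : opr (m + m') = opr m + opr m' :=
  (Pool.Agent.W918.LL.main d m m').2.2.2.1

lemma opr_mul (m m' : C(UnitAddTorus (Fin d), ℂ)) : opr (m * m') = opr m * opr m' :=
  (Pool.Agent.W918.LL.main d m m').2.2.1

lemma opr_smul (a : ℂ) (m : C(UnitAddTorus (Fin d), ℂ)) : opr (a • m) = a • opr m :=
  (Pool.Agent.W918.LL.main d m m).2.2.2.2.1 a

lemma opr_sub (m m' : C(UnitAddTorus (Fin d), ℂ)) : opr (m - m') = opr m - opr m' := by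
  have : m - m' = m + (-1 : ℂ) • m' := by
    ext k
    simp [sub_eq_add_neg]
  rw [this, opr_add, opr_smul]
  ext u
  simp [sub_eq_add_neg]

lemma opr_apply (m : C(UnitAddTorus (Fin d), ℂ)) (u : l2 (Fin d → ℤ)) (x : Fin d → ℤ) :
    HasSum (fun y => UnitAddTorus.mFourierCoeff m (x - y) * u y) (opr m u x) := by
  obtain ⟨h1, h2⟩ := (Pool.Agent.W918.LL.main d m m).1 u x
  rw [h2]
  exact h1.hasSum

lemma trig_coeff (h : (Fin d → ℤ) →₀ ℂ) (x : Fin d → ℤ) :
    UnitAddTorus.mFourierCoeff (trig h) x = h x :=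
  (Pool.Agent.W308.LL.Trig.main d).2 h x

lemma nmul (S T : l2 (Fin d → ℤ) →L[ℂ] l2 (Fin d → ℤ)) : ‖S * T‖ ≤ ‖S‖ * ‖T‖ :=
  ContinuousLinearMap.opNorm_comp_le S T

/-! ### random operators of finite range -/

/-- Bounded covariant measurable random operators of finite range. -/
structure Gd (A : ((Fin d → ℤ) → ℝ) → (l2 (Fin d → ℤ) →L[ℂ] l2 (Fin d → ℤ))) : Prop where
  fr : ∃ F : Finset (Fin d → ℤ), ∀ v x y, x - y ∉ F → A v (dl y) x = 0
  cov : ∀ v x y z, A (fun t => v (t + z)) (dl y) x = A v (dl (y + z)) (x + z)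
  ms : ∀ x y, Measurable (fun v => A v (dl y) x)
  bd : ∃ K : ℝ, ∀ v, ‖A v‖ ≤ K

lemma Gd.zero : Gd (d := d) (fun _ => 0) where
  fr := ⟨∅, fun v x y _ => rfl⟩
  cov := fun v x y z => rfl
  ms := fun x y => measurable_const
  bd := ⟨0, fun v => by simp⟩

lemma Gd.one : Gd (d := d) (fun _ => 1) where
  fr := ⟨{0}, fun v x y h => by
    rw [Finset.mem_singleton, sub_eq_zero] at h
    rw [one_apply_eq_self, dl_apply, if_neg h]⟩
  cov := fun v x y z => by
    rw [one_apply_eq_self, one_apply_eq_self, dl_apply, dl_apply]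
    simp only [add_left_inj]
  ms := fun x y => measurable_const
  bd := ⟨1, fun v => ContinuousLinearMap.norm_id_le⟩

lemma Gd.dc : Gd (d := d) dc where
  fr := ⟨{0}, fun v x y h => by
    rw [Finset.mem_singleton, sub_eq_zero] at h
    rw [dc_apply, dl_apply, if_neg h, mul_zero]⟩
  cov := fun v x y z => by
    rw [dc_apply, dc_apply, dl_apply, dl_apply]
    simp only [add_left_inj]
  ms := fun x y => by
    simp only [dc_apply]
    exact (cay_cont.measurable.comp (measurable_pi_apply x)).mul_const _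
  bd := ⟨1, dc_norm⟩

lemma opr_dl (m : C(UnitAddTorus (Fin d), ℂ)) (x y : Fin d → ℤ) :
    opr m (dl y) x = UnitAddTorus.mFourierCoeff m (x - y) := by
  have h1 := opr_apply m (dl y) x
  have h2 : HasSum (fun z => UnitAddTorus.mFourierCoeff m (x - z) * (dl y : l2 (Fin d → ℤ)) z)
      (∑ z ∈ ({y} : Finset (Fin d → ℤ)),
        UnitAddTorus.mFourierCoeff m (x - z) * (dl y : l2 (Fin d → ℤ)) z) := by
    refine hasSum_sum_of_ne_finset_zero fun z hz => ?_
    rw [Finset.mem_singleton] at hz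
    rw [dl_apply, if_neg hz, mul_zero]
  rw [h1.unique h2, Finset.sum_singleton, dl_apply, if_pos rfl, mul_one]

lemma Gd.trg (h : (Fin d → ℤ) →₀ ℂ) : Gd (d := d) (fun _ => opr (trig h)) where
  fr := ⟨h.support, fun v x y hx => by
    rw [opr_dl, trig_coeff]
    exact Finsupp.notMem_support_iff.1 hx⟩
  cov := fun v x y z => by
    rw [opr_dl, opr_dl, add_sub_add_right_eq_sub]
  ms := fun x y => measurable_const
  bd := ⟨‖opr (trig h)‖, fun v => le_rfl⟩

lemma Gd.add {A B : ((Fin d → ℤ) → ℝ) → (l2 (Fin d → ℤ) →L[ℂ] l2 (Fin d → ℤ))} (hA : Gd A)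
    (hB : Gd B) : Gd (fun v => A v + B v) where
  fr := by
    obtain ⟨F, hF⟩ := hA.fr
    obtain ⟨G, hG⟩ := hB.fr
    refine ⟨F ∪ G, fun v x y h => ?_⟩
    rw [Finset.notMem_union] at h
    change A v (dl y) x + B v (dl y) x = 0
    rw [hF v x y h.1, hG v x y h.2, add_zero]
  cov := fun v x y z => by
    change A _ (dl y) x + B _ (dl y) x = A v _ _ + B v _ _
    rw [hA.cov, hB.cov]
  ms := fun x y => (hA.ms x y).add (hB.ms x y)
  bd := by
    obtain ⟨K, hK⟩ := hA.bd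
    obtain ⟨L, hL⟩ := hB.bd
    exact ⟨K + L, fun v => (norm_add_le _ _).trans (add_le_add (hK v) (hL v))⟩

lemma mul_app {A B : l2 (Fin d → ℤ) →L[ℂ] l2 (Fin d → ℤ)} {G : Finset (Fin d → ℤ)}
    (hB : ∀ x y, x - y ∉ G → B (dl y) x = 0) (x y : Fin d → ℤ) :
    (A * B) (dl y) x = ∑ f ∈ G, B (dl y) (f + y) * A (dl (f + y)) x := by
  change A (B (dl y)) x = _
  rw [app_fin A (B (dl y)) x (G.image (fun f => f + y)), Finset.sum_image]
  · intro a _ b _ hab
    exact add_right_cancel hab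
  · intro w hw
    rw [hB w y, zero_mul]
    intro hG
    exact hw (Finset.mem_image.2 ⟨w - y, hG, sub_add_cancel _ _⟩)

lemma Gd.mul {A B : ((Fin d → ℤ) → ℝ) → (l2 (Fin d → ℤ) →L[ℂ] l2 (Fin d → ℤ))} (hA : Gd A)
    (hB : Gd B) : Gd (fun v => A v * B v) := by
  obtain ⟨F, hF⟩ := hA.fr
  obtain ⟨G, hG⟩ := hB.fr
  refine ⟨⟨Finset.image₂ (fun a b => a + b) F G, fun v x y h => ?_⟩, fun v x y z => ?_,
    fun x y => ?_, ?_⟩
  · rw [mul_app (hG v)]
    refine Finset.sum_eq_zero fun f hf => ?_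
    rw [hF v x (f + y), mul_zero]
    intro hx
    refine h (Finset.mem_image₂.2 ⟨x - (f + y), hx, f, hf, ?_⟩)
    abel
  · rw [mul_app (hG _), mul_app (hG _)]
    refine Finset.sum_congr rfl fun f _ => ?_
    rw [hA.cov, hB.cov, add_assoc]
  · have : (fun v => (A v * B v) (dl y) x) =
        fun v => ∑ f ∈ G, B v (dl y) (f + y) * A v (dl (f + y)) x := by
      funext v
      exact mul_app (hG v) x y
    rw [this]
    exact Finset.measurable_fun_sum G fun f _ => (hB.ms (f + y) y).mul (hA.ms x (f + y))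
  · obtain ⟨K, hK⟩ := hA.bd
    obtain ⟨L, hL⟩ := hB.bd
    refine ⟨K * L, fun v => ?_⟩
    have h1 : ‖A v * B v‖ ≤ ‖A v‖ * ‖B v‖ := nmul (A v) (B v)
    have h2 : ‖A v‖ * ‖B v‖ ≤ K * L :=
      mul_le_mul (hK v) (hL v) (norm_nonneg (B v)) ((norm_nonneg (A v)).trans (hK v))
    exact h1.trans h2

lemma Gd.pow {A : ((Fin d → ℤ) → ℝ) → (l2 (Fin d → ℤ) →L[ℂ] l2 (Fin d → ℤ))} (hA : Gd A)
    (n : ℕ) : Gd (fun v => A v ^ n) := by
  induction n with
  | zero => simpa using Gd.one (d := d)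
  | succ n ih =>
    simp only [pow_succ]
    exact ih.mul hA

lemma Gd.geom {A : ((Fin d → ℤ) → ℝ) → (l2 (Fin d → ℤ) →L[ℂ] l2 (Fin d → ℤ))} (hA : Gd A)
    (n : ℕ) : Gd (fun v => ∑ i ∈ Finset.range n, A v ^ i) := by
  induction n with
  | zero => simpa using Gd.zero (d := d)
  | succ n ih =>
    simp only [Finset.sum_range_succ]
    exact ih.add (hA.pow n)

/-! ### the shift -/

lemma mp (ν : Measure ℝ) [IsProbabilityMeasure ν] (x : Fin d → ℤ) :
    MeasurePreserving (fun (v : (Fin d → ℤ) → ℝ) (y : Fin d → ℤ) => v (y + x))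
      (Pn ν (Fin d → ℤ)) (Pn ν (Fin d → ℤ)) := by
  classical
  have hm : Measurable (fun (v : (Fin d → ℤ) → ℝ) (y : Fin d → ℤ) => v (y + x)) :=
    measurable_pi_lambda _ fun y => measurable_pi_apply _
  refine ⟨hm, ?_⟩
  unfold Pn
  apply Measure.eq_infinitePi
  intro s t ht
  rw [Measure.map_apply hm (MeasurableSet.pi s.countable_toSet fun i _ => ht i)]
  have e : (fun (v : (Fin d → ℤ) → ℝ) (y : Fin d → ℤ) => v (y + x)) ⁻¹' (Set.pi s t) =
      Set.pi (s.map (Equiv.addRight x).toEmbedding : Finset (Fin d → ℤ)) (fun y => t (y - x)) := by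
    ext v
    simp only [Set.mem_preimage, Set.mem_pi, Finset.mem_coe, Finset.mem_map,
      Equiv.coe_toEmbedding, Equiv.coe_addRight]
    constructor
    · rintro h _ ⟨y, hy, rfl⟩
      rw [add_sub_cancel_right]
      exact h y hy
    · intro h y hy
      have := h (y + x) ⟨y, hy, rfl⟩
      rwa [add_sub_cancel_right] at this
  rw [e, Measure.infinitePi_pi]
  · rw [Finset.prod_map]
    refine Finset.prod_congr rfl (fun y _ => ?_)
    have h0 : y + x - x = y := add_sub_cancel_right y x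
    change ν (t (y + x - x)) = _
    rw [h0]
  · intro y hy
    rw [Finset.mem_map] at hy
    obtain ⟨y', hy', rfl⟩ := hy
    exact ht _

/-! ### means -/

/-- The mean of the random operator `A` is the operator with symbol `C`. -/
def HM (ν : Measure ℝ) [IsProbabilityMeasure ν]
    (A : ((Fin d → ℤ) → ℝ) → (l2 (Fin d → ℤ) →L[ℂ] l2 (Fin d → ℤ)))
    (C : C(UnitAddTorus (Fin d), ℂ)) : Prop :=
  ∀ (u : l2 (Fin d → ℤ)) (x : Fin d → ℤ), Measurable (fun v => A v u x) ∧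
    ∫ v, A v u x ∂(Pn ν (Fin d → ℤ)) = opr C u x

lemma entry_le {A : ((Fin d → ℤ) → ℝ) → (l2 (Fin d → ℤ) →L[ℂ] l2 (Fin d → ℤ))} {K : ℝ}
    (hK : ∀ v, ‖A v‖ ≤ K) (u : l2 (Fin d → ℤ)) (x : Fin d → ℤ) (v : (Fin d → ℤ) → ℝ) :
    ‖A v u x‖ ≤ K * ‖u‖ :=
  (apply_le _ x).trans ((A v).le_of_opNorm_le (hK v) u)

lemma entry_int (ν : Measure ℝ) [IsProbabilityMeasure ν]
    {A : ((Fin d → ℤ) → ℝ) → (l2 (Fin d → ℤ) →L[ℂ] l2 (Fin d → ℤ))} {K : ℝ}
    (hK : ∀ v, ‖A v‖ ≤ K) {u : l2 (Fin d → ℤ)} {x : Fin d → ℤ}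
    (hm : Measurable (fun v => A v u x)) :
    Integrable (fun v => A v u x) (Pn ν (Fin d → ℤ)) :=
  Integrable.of_bound hm.aestronglyMeasurable (K * ‖u‖)
    (Eventually.of_forall fun v => entry_le hK u x v)

lemma Gd.mean (ν : Measure ℝ) [IsProbabilityMeasure ν]
    {A : ((Fin d → ℤ) → ℝ) → (l2 (Fin d → ℤ) →L[ℂ] l2 (Fin d → ℤ))} (hA : Gd A) :
    ∃ C : C(UnitAddTorus (Fin d), ℂ), HM ν A C := by
  obtain ⟨F, hF⟩ := hA.fr
  obtain ⟨K, hK⟩ := hA.bd
  set a : (Fin d → ℤ) → ℂ := fun k => ∫ v, A v (dl 0) k ∂(Pn ν (Fin d → ℤ)) with ha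
  have ha0 : ∀ k, a k ≠ 0 → k ∈ F := by
    intro k hk
    by_contra hkF
    refine hk ?_
    have : ∀ v, A v (dl 0) k = 0 := fun v => hF v k 0 (by rwa [sub_zero])
    simp only [ha, this, integral_zero]
  set h : (Fin d → ℤ) →₀ ℂ := Finsupp.onFinset F a ha0 with hh
  have hmean : ∀ x y, ∫ v, A v (dl y) x ∂(Pn ν (Fin d → ℤ)) = a (x - y) := by
    intro x y
    have h1 : ∀ v, A v (dl y) x = A (fun t => v (t + y)) (dl 0) (x - y) := by
      intro v
      rw [hA.cov, zero_add, sub_add_cancel]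
    simp only [h1, ha]
    have h2 := integral_map (μ := Pn ν (Fin d → ℤ)) (mp ν y).measurable.aemeasurable
      (f := fun v => A v (dl 0) (x - y)) (hA.ms _ _).aestronglyMeasurable
    rw [(mp ν y).map_eq] at h2
    exact h2.symm
  refine ⟨trig h, fun u x => ?_⟩
  have hs : ∀ y ∉ F.image (fun f => x - f), x - y ∉ F := by
    intro y hy hx
    exact hy (Finset.mem_image.2 ⟨x - y, hx, sub_sub_cancel _ _⟩)
  have hfin : ∀ v, A v u x = ∑ y ∈ F.image (fun f => x - f), u y * A v (dl y) x := by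
    intro v
    refine app_fin _ _ _ _ fun y hy => ?_
    rw [hF v x y (hs y hy), mul_zero]
  constructor
  · simp only [hfin]
    exact Finset.measurable_fun_sum _ fun y _ => (hA.ms x y).const_mul _
  · simp only [hfin]
    rw [integral_finsetSum _ fun y _ => (entry_int ν hK (hA.ms x y)).const_mul _]
    simp only [integral_const_mul, hmean]
    have h2 := opr_apply (trig h) u x
    have h3 : HasSum (fun y => UnitAddTorus.mFourierCoeff (trig h) (x - y) * u y)
        (∑ y ∈ F.image (fun f => x - f), UnitAddTorus.mFourierCoeff (trig h) (x - y) * u y) := by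
      refine hasSum_sum_of_ne_finset_zero fun y hy => ?_
      rw [trig_coeff, hh, Finsupp.onFinset_apply]
      have : a (x - y) = 0 := by
        by_contra hne
        exact hs y hy (ha0 _ hne)
      rw [this, zero_mul]
    rw [h2.unique h3]
    refine Finset.sum_congr rfl fun y _ => ?_
    rw [trig_coeff, hh, Finsupp.onFinset_apply, mul_comm]

end Pool.Agent.W298.WA.Csym
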