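import Pool.Agent.W792.WA.Stm4

/-!
Project WA (MP_28b024_mp), part KFIN: from the normalized form to all kinetic energies.
-/

set_option autoImplicit false

namespace Pool.Agent.W298.WA.Kfin

open MeasureTheory Filter Pool.Agent.W792.LL Pool.Agent.W792.WA
open scoped Topology

theorem main : S_KN → S_AFF → S_KFIN := by
  intro hKN hAFF d K ε hd hε hlt
  set m : ℝ := ⨅ k, K k with hm
  set M : ℝ := ⨆ k, K k with hM
  have hcr : IsCompact (Set.range K) := isCompact_range K.continuous
  have hne : (Set.range K).Nonempty := Set.range_nonempty _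
  obtain ⟨k0, hk0⟩ : m ∈ Set.range K := hcr.sInf_mem hne
  obtain ⟨k1, hk1⟩ : M ∈ Set.range K := hcr.sSup_mem hne
  have hd' : (0 : ℝ) < 4 * d := by positivity
  have hMm : 0 < M - m := by linarith
  set α : ℝ := 4 * d / (M - m) with hα
  have hα0 : 0 < α := by positivity
  have hαM : α * (M - m) = 4 * d := by
    rw [hα]
    field_simp
  have hpc : PreconnectedSpace (UnitAddTorus (Fin d)) := by
    unfold UnitAddTorus
    infer_instance
  have hsurj : ∀ E : ℝ, 0 ≤ E → E ≤ 4 * d →
      ∃ k, (α • (K - ContinuousMap.const _ m) : C(UnitAddTorus (Fin d), ℝ)) k = E := by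
    intro E hE0 hE1
    have h1 : m ≤ m + E / α := by
      have : 0 ≤ E / α := by positivity
      linarith
    have h2 : m + E / α ≤ M := by
      have : E / α ≤ M - m := by
        rw [div_le_iff₀ hα0]
        linarith
      linarith
    obtain ⟨k, hk⟩ := mem_range_of_exists_le_of_exists_ge K.continuous
      (c := m + E / α) ⟨k0, by rw [hk0]; exact h1⟩ ⟨k1, by rw [hk1]; exact h2⟩
    refine ⟨k, ?_⟩
    simp only [ContinuousMap.smul_apply, ContinuousMap.sub_apply, ContinuousMap.const_apply,
      smul_eq_mul]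
    rw [hk]
    field_simp
    ring
  obtain ⟨g1, hg1, hmain⟩ := hKN d (α • (K - ContinuousMap.const _ m)) (ε * α) hd
    (by positivity) hsurj
  refine ⟨α⁻¹ • g1, fun t => ?_, ?_⟩
  · rw [ContinuousMap.smul_apply, smul_eq_mul, abs_mul, abs_of_pos (by positivity : 0 < α⁻¹)]
    have := hg1 t
    calc α⁻¹ * |g1 t| ≤ α⁻¹ * (ε * α) := mul_le_mul_of_nonneg_left this (by positivity)
      _ = ε := by field_simp
  · intro ν _ hint hat
    obtain ⟨lam₀, hl0, hl⟩ := hmain ν hint hat
    refine ⟨lam₀ / α, by positivity, fun lam hlam hle => ?_⟩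
    have hle' : α * lam ≤ lam₀ := by
      rw [le_div_iff₀ hα0] at hle
      linarith
    have hkey : (α • (K - ContinuousMap.const _ m) + gK g1 d : C(UnitAddTorus (Fin d), ℝ)) =
        α • ((K + gK (α⁻¹ • g1) d) - ContinuousMap.const _ m) := by
      ext k
      simp only [ContinuousMap.add_apply, ContinuousMap.smul_apply, ContinuousMap.sub_apply,
        ContinuousMap.const_apply, smul_eq_mul, gK, ContinuousMap.comp_apply]
      field_simp
      ring
    filter_upwards [hl (α * lam) (by positivity) hle'] with v hv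
    rw [hkey] at hv
    have h3 := hAFF d (K + gK (α⁻¹ • g1) d) α m lam 0 (4 * d) v hα0 hv
    have h4 : m + 0 / α = m := by simp
    have h5 : m + 4 * d / α = M := by
      rw [← hαM]
      field_simp
      ring
    rw [h4, h5] at h3
    exact h3

end Pool.Agent.W298.WA.Kfin
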