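import Pool.Agent.W792.WA.Stm

/-!
Project WA, part VIT1: Vitali type convergence for Banach valued analytic functions.
-/

namespace Pool.Agent.W298.WA.Vit1

open MeasureTheory Filter
open scoped Topology Real

theorem main : Pool.Agent.W792.WA.S_VIT1 := by
  intro E _ _ _ r t₀ C f hr ht₀ hd hb hlim
  have hC : 0 ≤ C := (norm_nonneg _).trans (hb 0 0 (by simp; linarith))
  obtain ⟨ρ, hρ1, hρr⟩ : ∃ ρ : NNReal, (1 : ℝ) < ρ ∧ (ρ : ℝ) < r := by
    refine ⟨⟨(1 + r) / 2, by linarith⟩, ?_, ?_⟩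
    · change 1 < (1 + r) / 2; linarith
    · change (1 + r) / 2 < r; linarith
  obtain ⟨τ, hτ0, hτt, hτ1⟩ : ∃ τ : NNReal, (0 : ℝ) < τ ∧ (τ : ℝ) < t₀ ∧ (τ : ℝ) < 1 := by
    have : 0 < min t₀ 1 := lt_min ht₀ one_pos
    refine ⟨⟨min t₀ 1 / 2, by positivity⟩, ?_, ?_, ?_⟩
    · change 0 < min t₀ 1 / 2; positivity
    · change min t₀ 1 / 2 < t₀
      linarith [min_le_left t₀ 1]
    · change min t₀ 1 / 2 < 1
      linarith [min_le_right t₀ 1]
  have hρ0 : (0 : ℝ) < ρ := by linarith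
  have sub1 : Metric.closedBall (0 : ℂ) ρ ⊆ Metric.ball 0 r :=
    Metric.closedBall_subset_ball hρr
  have sub2 : Metric.closedBall (0 : ℂ) τ ⊆ Metric.ball 0 r :=
    Metric.closedBall_subset_ball (by linarith)
  have p1 : ∀ M, HasFPowerSeriesOnBall (f M) (cauchyPowerSeries (f M) 0 ρ) 0 ρ := fun M =>
    ((hd M).mono sub1).hasFPowerSeriesOnBall (by exact_mod_cast hρ0)
  have p2 : ∀ M, HasFPowerSeriesOnBall (f M) (cauchyPowerSeries (f M) 0 τ) 0 τ := fun M =>
    ((hd M).mono sub2).hasFPowerSeriesOnBall (by exact_mod_cast hτ0)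
  have pe : ∀ M, cauchyPowerSeries (f M) 0 ρ = cauchyPowerSeries (f M) 0 τ := fun M =>
    (p1 M).hasFPowerSeriesAt.eq_formalMultilinearSeries (p2 M).hasFPowerSeriesAt
  set a : ℕ → ℕ → E := fun M n => cauchyPowerSeries (f M) 0 ρ n (fun _ => 1) with ha
  have hsum : ∀ M, HasSum (a M) (f M 1) := by
    intro M
    have h1 : (1 : ℂ) ∈ Metric.eball (0 : ℂ) (ρ : ENNReal) := by
      rw [Metric.mem_eball, edist_zero_right]
      have : ‖(1 : ℂ)‖₊ < ρ := by
        rw [← NNReal.coe_lt_coe]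
        simpa using hρ1
      exact_mod_cast this
    have := (p1 M).hasSum h1
    rwa [zero_add] at this
  have hev : ∀ (p : FormalMultilinearSeries ℂ ℂ E) (n : ℕ), ‖p n (fun _ => 1)‖ ≤ ‖p n‖ := by
    intro p n
    have := (p n).le_opNorm (fun _ => (1 : ℂ))
    simpa using this
  have hbd : ∀ M n, ‖a M n‖ ≤ C * (ρ : ℝ)⁻¹ ^ n := by
    intro M n
    refine (hev _ n).trans ((norm_cauchyPowerSeries_le _ _ _ _).trans ?_)
    rw [abs_of_pos hρ0]
    refine mul_le_mul_of_nonneg_right ?_ (by positivity)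
    have h2 : ∫ θ : ℝ in (0 : ℝ)..2 * π, ‖f M (circleMap 0 ρ θ)‖ ≤ C * (2 * π) := by
      have h3 : ‖∫ θ : ℝ in (0 : ℝ)..2 * π, ‖f M (circleMap 0 ρ θ)‖‖ ≤ C * |2 * π - 0| := by
        refine intervalIntegral.norm_integral_le_of_norm_le_const fun θ _ => ?_
        rw [norm_norm]
        refine hb M _ (sub1 ?_)
        exact circleMap_mem_closedBall _ hρ0.le _
      rw [sub_zero, abs_of_pos Real.two_pi_pos] at h3
      exact (le_abs_self _).trans h3
    calc (2 * π)⁻¹ * ∫ θ : ℝ in (0 : ℝ)..2 * π, ‖f M (circleMap 0 ρ θ)‖ ≤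
        (2 * π)⁻¹ * (C * (2 * π)) := mul_le_mul_of_nonneg_left h2 (by positivity)
      _ = C := by field_simp
  have hlimn : ∀ n, Tendsto (fun M => a M n) atTop (𝓝 0) := by
    intro n
    have hI : Tendsto (fun M => ∫ θ : ℝ in (0 : ℝ)..2 * π, ‖f M (circleMap 0 τ θ)‖) atTop
        (𝓝 (∫ _θ : ℝ in (0 : ℝ)..2 * π, (0 : ℝ))) := by
      refine intervalIntegral.tendsto_integral_filter_of_dominated_convergence (fun _ => C)
        ?_ ?_ ?_ ?_
      · refine Eventually.of_forall fun M => ?_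
        have hc : Continuous (fun θ : ℝ => ‖f M (circleMap 0 τ θ)‖) := by
          refine Continuous.norm ?_
          exact (hd M).continuousOn.comp_continuous (continuous_circleMap 0 τ)
            (fun θ => sub2 (circleMap_mem_closedBall _ hτ0.le _))
        exact hc.aestronglyMeasurable
      · refine Eventually.of_forall fun M => Eventually.of_forall fun θ _ => ?_
        rw [norm_norm]
        exact hb M _ (sub2 (circleMap_mem_closedBall _ hτ0.le _))
      · exact intervalIntegrable_const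
      · refine Eventually.of_forall fun θ _ => ?_
        have h4 : circleMap 0 τ θ ∈ Metric.ball (0 : ℂ) t₀ :=
          Metric.closedBall_subset_ball hτt (circleMap_mem_closedBall _ hτ0.le _)
        have := (hlim _ h4).norm
        simpa using this
    rw [intervalIntegral.integral_zero] at hI
    have h5 : Tendsto (fun M => ((2 * π)⁻¹ * ∫ θ : ℝ in (0 : ℝ)..2 * π,
        ‖f M (circleMap 0 τ θ)‖) * |(τ : ℝ)|⁻¹ ^ n) atTop (𝓝 0) := by
      have := (hI.const_mul (2 * π)⁻¹).mul_const (|(τ : ℝ)|⁻¹ ^ n)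
      simpa using this
    refine squeeze_zero_norm (fun M => ?_) h5
    have h6 : a M n = cauchyPowerSeries (f M) 0 τ n (fun _ => 1) := by
      simp only [ha, pe M]
    rw [h6]
    exact (hev _ n).trans (norm_cauchyPowerSeries_le _ _ _ _)
  have hS : Summable (fun n : ℕ => C * (ρ : ℝ)⁻¹ ^ n) :=
    (summable_geometric_of_lt_one (by positivity) (inv_lt_one_of_one_lt₀ hρ1)).mul_left C
  have hT := tendsto_tsum_of_dominated_convergence (𝓕 := atTop) (f := a) (g := fun _ => (0 : E))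
    hS hlimn (Eventually.of_forall hbd)
  rw [tsum_zero] at hT
  refine hT.congr fun M => ?_
  exact (hsum M).tsum_eq

end Pool.Agent.W298.WA.Vit1
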